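import Pool.Agent.D0H39.NG.Stm3

/-!
# The cut-off Hamiltonian (GP4)
-/

set_option autoImplicit false

open Set Filter Topology Metric Function
open scoped ContDiff RealInnerProductSpace NNReal

noncomputable section

namespace Pool.Agent.D0H6.NG

open Pool.Agent.D0H39.NG

theorem t_HAMC : S_HAMC := by
  intro m N B hN hB
  obtain ⟨R, hR⟩ := hN.isBounded.subset_closedBall (0 : E m)
  let χ : ContDiffBump ((0 : E m × E m)) := ⟨|R| + 1, |R| + 2, by positivity, by linarith⟩
  refine ⟨fun y => χ y * (1 / 2 * ⟪B y.1 y.2, y.2⟫), ?_, ?_, ?_⟩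
  · have h1 : ContDiff ℝ ∞ (fun y : E m × E m => B y.1 y.2) :=
      (hB.comp contDiff_fst).clm_apply contDiff_snd
    exact χ.contDiff.mul (contDiff_const.mul (h1.inner ℝ contDiff_snd))
  · exact χ.hasCompactSupport.mul_right
  · intro q hq
    have hq' : ((q, 0) : E m × E m) ∈ ball (0 : E m × E m) χ.rIn := by
      have h2 : ‖q‖ ≤ R := by simpa using hR hq
      have h3 : ‖((q, 0) : E m × E m)‖ = ‖q‖ := by simp [Prod.norm_def]
      rw [mem_ball_zero_iff, h3]
      have h4 : R ≤ |R| := le_abs_self R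
      change ‖q‖ < |R| + 1
      linarith
    filter_upwards [χ.eventuallyEq_one_of_mem_ball hq'] with y hy
    rw [hy]
    simp

end Pool.Agent.D0H6.NG
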