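import Pool.Agent.D0H6.NG.Scl

/-!
# Dilations of the fibres and images of the zero section (GP6)
-/

set_option autoImplicit false

open Set Filter Topology Metric Function
open scoped ContDiff RealInnerProductSpace NNReal

noncomputable section

namespace Pool.Agent.D0H6.NG

open Pool.Agent.D0H39.NG

theorem symp_conj {m : ℕ} {N : Set (E m)} {ψ : E m × E m → E m × E m} {r : ℝ} (hr : r ≠ 0)
    (hψ : IsSymp N ψ) : IsSymp N (fun z => dil r⁻¹ (ψ (dil r z))) := by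
  have hd : ∀ z a, fderiv ℝ (fun z => dil r⁻¹ (ψ (dil r z))) z a =
      dil r⁻¹ (fderiv ℝ ψ (dil r z) (dil r a)) := by
    intro z a
    have h1 : HasFDerivAt ψ (fderiv ℝ ψ (dil r z)) (dil r z) :=
      (hψ.smooth.differentiable (by simp) _).hasFDerivAt
    have h2 : HasFDerivAt (fun z => ψ (dil r z)) ((fderiv ℝ ψ (dil r z)).comp (L r)) z :=
      h1.comp z ((L r).hasFDerivAt (x := z))
    have h3 : HasFDerivAt (fun z => dil r⁻¹ (ψ (dil r z)))
        ((L r⁻¹).comp ((fderiv ℝ ψ (dil r z)).comp (L r))) z := by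
      have h4 : HasFDerivAt (fun w : E m × E m => dil r⁻¹ w) (L r⁻¹) (ψ (dil r z)) :=
        (L r⁻¹).hasFDerivAt
      exact HasFDerivAt.comp (g := fun w : E m × E m => dil r⁻¹ w)
        (f := fun z => ψ (dil r z)) z h4 h2
    rw [h3.fderiv]
    rfl
  refine ⟨?_, ?_, ?_⟩
  · exact (L r⁻¹).contDiff.comp (hψ.smooth.comp (L r).contDiff)
  · intro z hz
    exact dil_CT _ (hψ.maps _ (dil_CT r hz))
  · intro z hz a b ha hb
    have ha' : IsTan (CT N) (dil r z) (dil r a) :=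
      isTan_map (L r) (fun y hy => dil_CT r hy) ha
    have hb' : IsTan (CT N) (dil r z) (dil r b) :=
      isTan_map (L r) (fun y hy => dil_CT r hy) hb
    rw [hd, hd, om_dil, hψ.form _ (dil_CT r hz) _ _ ha' hb', om_dil, ← mul_assoc,
      inv_mul_cancel₀ hr, one_mul]

theorem t_SCI : S_SCI := by
  intro m k N Λ r _ hr h
  have hr0 : r ≠ 0 := hr.ne'
  obtain ⟨ψ, ψ', hψ, hψ', hinv, him⟩ := h
  refine ⟨fun z => dil r⁻¹ (ψ (dil r z)), fun z => dil r⁻¹ (ψ' (dil r z)), symp_conj hr0 hψ,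
    symp_conj hr0 hψ', ?_, ?_⟩
  · intro z hz
    have hz' := hinv _ (dil_CT r hz)
    constructor
    · change dil r⁻¹ (ψ' (dil r (dil r⁻¹ (ψ (dil r z))))) = z
      rw [dil_inv' hr0, hz'.1, dil_inv hr0]
    · change dil r⁻¹ (ψ (dil r (dil r⁻¹ (ψ' (dil r z))))) = z
      rw [dil_inv' hr0, hz'.2, dil_inv hr0]
  · have hzero : ∀ z : E m × E m, z.2 = 0 → dil r z = z := by
      rintro ⟨q, p⟩ hp
      simp only at hp
      subst hp
      simp [dil]
    ext w
    constructor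
    · rintro ⟨z, hz, rfl⟩
      have h1 : ψ z ∈ dil r '' Λ := by rw [← him]; exact ⟨z, hz, rfl⟩
      obtain ⟨y, hy, hyz⟩ := h1
      change dil r⁻¹ (ψ (dil r z)) ∈ Λ
      rw [hzero z hz.2, ← hyz, dil_inv hr0]
      exact hy
    · intro hw
      have h1 : dil r w ∈ ψ '' {z | z.1 ∈ N ∧ z.2 = 0} := by rw [him]; exact ⟨w, hw, rfl⟩
      obtain ⟨z, hz, hzw⟩ := h1
      refine ⟨z, hz, ?_⟩
      change dil r⁻¹ (ψ (dil r z)) = w
      rw [hzero z hz.2, hzw, dil_inv hr0]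

end Pool.Agent.D0H6.NG
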