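import Pool.Agent.D0H39.NG.Stm3

/-!
# Dilations of the fibres of a cotangent bundle (GP5, GP6)
-/

set_option autoImplicit false

open Set Filter Topology Metric Function
open scoped ContDiff RealInnerProductSpace NNReal

noncomputable section

namespace Pool.Agent.D0H6.NG

open Pool.Agent.D0H39.NG

variable {m : ℕ}

/-- linear maps which map a set to another one map tangent vectors to tangent vectors -/
theorem isTan_map {V : Type} [NormedAddCommGroup V] [NormedSpace ℝ V] (A : V →L[ℝ] V)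
    {S S' : Set V} (hA : ∀ y ∈ S, A y ∈ S') {z a : V} (h : IsTan S z a) :
    IsTan S' (A z) (A a) := by
  obtain ⟨c, hc, hS, h0, hd⟩ := h
  have h1 : HasDerivAt c a 0 := hd ▸ (hc.differentiableAt (by simp)).hasDerivAt
  refine ⟨fun t => A (c t), A.contDiff.contDiffAt.comp 0 hc, hS.mono fun t ht => hA _ ht,
    by simp [h0], ?_⟩
  exact (A.hasFDerivAt.comp_hasDerivAt 0 h1).deriv

/-- multiples of tangent vectors are tangent vectors -/
theorem isTan_smul {V : Type} [NormedAddCommGroup V] [NormedSpace ℝ V] {S : Set V} {z a : V}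
    (r : ℝ) (h : IsTan S z a) : IsTan S z (r • a) := by
  obtain ⟨c, hc, hS, h0, hd⟩ := h
  have h1 : HasDerivAt c a 0 := hd ▸ (hc.differentiableAt (by simp)).hasDerivAt
  have hr : HasDerivAt (fun t : ℝ => r * t) r 0 := by
    simpa using (hasDerivAt_id (0 : ℝ)).const_mul r
  have hz : (fun t : ℝ => r * t) 0 = 0 := by simp
  refine ⟨fun t => c (r * t), ?_, ?_, by simp [h0], ?_⟩
  · have h2 : ContDiffAt ℝ ∞ (fun t : ℝ => r * t) 0 := by fun_prop
    exact ContDiffAt.comp (0 : ℝ) (g := c) (f := fun t : ℝ => r * t)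
      (by rw [mul_zero]; exact hc) h2
  · have h3 : Tendsto (fun t : ℝ => r * t) (𝓝 0) (𝓝 0) := by
      have : Tendsto (fun t : ℝ => r * t) (𝓝 0) (𝓝 (r * 0)) :=
        (continuous_const.mul continuous_id).tendsto 0
      simpa using this
    exact h3.eventually hS
  · have h4 : HasDerivAt c a ((fun t : ℝ => r * t) 0) := by rw [hz]; exact h1
    exact (HasDerivAt.scomp (0 : ℝ) h4 hr).deriv

/-- the dilation as a continuous linear map -/
def L (r : ℝ) : (E m × E m) →L[ℝ] (E m × E m) :=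
  (ContinuousLinearMap.fst ℝ (E m) (E m)).prod (r • ContinuousLinearMap.snd ℝ (E m) (E m))

theorem L_apply (r : ℝ) (z : E m × E m) : L r z = dil r z := rfl

theorem dil_dil (r s : ℝ) (z : E m × E m) : dil r (dil s z) = dil (r * s) z := by
  simp [dil, smul_smul]

theorem dil_one (z : E m × E m) : dil 1 z = z := by simp [dil]

theorem dil_inv {r : ℝ} (hr : r ≠ 0) (z : E m × E m) : dil r⁻¹ (dil r z) = z := by
  rw [dil_dil, inv_mul_cancel₀ hr, dil_one]

theorem dil_inv' {r : ℝ} (hr : r ≠ 0) (z : E m × E m) : dil r (dil r⁻¹ z) = z := by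
  rw [dil_dil, mul_inv_cancel₀ hr, dil_one]

theorem dil_CT (r : ℝ) {N : Set (E m)} {z : E m × E m} (hz : z ∈ CT N) : dil r z ∈ CT N :=
  ⟨hz.1, isTan_smul r hz.2⟩

theorem om_dil (r : ℝ) (a b : E m × E m) : om (dil r a) (dil r b) = r * om a b := by
  simp only [om, dil, real_inner_smul_left]
  ring

theorem t_SCL : S_SCL := by
  intro m k N Λ f r _ hr hΛ hf
  have hr0 : r ≠ 0 := hr.ne'
  have htan : ∀ z ∈ Λ, ∀ b, IsTan (dil r '' Λ) (dil r z) b → ∃ a, IsTan Λ z a ∧ dil r a = b := by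
    intro z _ b hb
    have h1 : IsTan Λ (L r⁻¹ (dil r z)) (L r⁻¹ b) := by
      refine isTan_map (L r⁻¹) ?_ hb
      rintro _ ⟨y, hy, rfl⟩
      rw [L_apply, dil_inv hr0]
      exact hy
    rw [L_apply, L_apply, dil_inv hr0] at h1
    exact ⟨_, h1, dil_inv' hr0 b⟩
  refine ⟨⟨?_, ?_, ?_, ?_, ?_⟩, ?_, htan⟩
  · exact hΛ.compact.image (L r).continuous
  · exact hΛ.nonempty.image _
  · rintro _ ⟨y, hy, rfl⟩
    exact dil_CT r (hΛ.sub hy)
  · rintro _ ⟨y, hy, rfl⟩
    obtain ⟨F, hF, hF0⟩ := hΛ.mfd y hy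
    refine ⟨fun s => dil r (F s), ⟨(L r).contDiff.comp hF.smooth, ?_, ?_, ?_⟩, by simp [hF0]⟩
    · intro s t hst
      have h1 : dil r⁻¹ (dil r (F s)) = dil r⁻¹ (dil r (F t)) := by
        simpa using congrArg (dil r⁻¹) hst
      rw [dil_inv hr0, dil_inv hr0] at h1
      exact hF.inj h1
    · intro s v hv
      have h1 : HasFDerivAt F (fderiv ℝ F s) s :=
        (hF.smooth.differentiable (by simp) s).hasFDerivAt
      have h2 : HasFDerivAt (fun s => dil r (F s)) ((L r).comp (fderiv ℝ F s)) s :=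
        ((L r).hasFDerivAt (x := F s)).comp s h1
      rw [h2.fderiv] at hv
      have h3 : dil r⁻¹ (dil r (fderiv ℝ F s v)) = dil r⁻¹ 0 := congrArg (dil r⁻¹) hv
      rw [dil_inv hr0] at h3
      have h4 : dil r⁻¹ (0 : E m × E m) = 0 := (L r⁻¹).map_zero
      exact hF.imm s v (h3.trans h4)
    · intro U hU
      obtain ⟨U', hU', hFU⟩ := hF.isOpen U hU
      refine ⟨(L r⁻¹) ⁻¹' U', hU'.preimage (L r⁻¹).continuous, ?_⟩
      have h1 : (fun s => dil r (F s)) '' U = dil r '' (F '' U) := by rw [image_image]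
      rw [h1, hFU]
      ext w
      constructor
      · rintro ⟨y, ⟨hy1, hy2⟩, rfl⟩
        refine ⟨⟨y, hy1, rfl⟩, ?_⟩
        change dil r⁻¹ (dil r y) ∈ U'
        rw [dil_inv hr0]
        exact hy2
      · rintro ⟨⟨y, hy1, rfl⟩, hw⟩
        change dil r⁻¹ (dil r y) ∈ U' at hw
        rw [dil_inv hr0] at hw
        exact ⟨y, ⟨hy1, hw⟩, rfl⟩
  · rintro _ ⟨y, hy, rfl⟩ a b ha hb
    obtain ⟨a', ha', rfl⟩ := htan y hy a ha
    obtain ⟨b', hb', rfl⟩ := htan y hy b hb
    rw [om_dil, hΛ.iso y hy a' b' ha' hb', mul_zero]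
  · refine ⟨fun w => r * f (dil r⁻¹ w), ?_⟩
    intro c s hc hcS
    have h1 : HasDerivAt c (deriv c s) s := (hc.differentiableAt (by simp)).hasDerivAt
    have h2 : HasDerivAt (fun t => dil r⁻¹ (c t)) (dil r⁻¹ (deriv c s)) s :=
      ((L r⁻¹).hasFDerivAt (x := c s)).comp_hasDerivAt s h1
    have h3 := hf (fun t => dil r⁻¹ (c t)) s ((L r⁻¹).contDiff.contDiffAt.comp s hc)
      (hcS.mono fun t ht => by
        obtain ⟨y, hy, hyt⟩ := ht
        rw [← hyt, dil_inv hr0]
        exact hy)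
    rw [h2.deriv] at h3
    have h4 := h3.const_mul r
    have h5 : r * ⟪(dil r⁻¹ (c s)).2, (dil r⁻¹ (deriv c s)).1⟫ = ⟪(c s).2, (deriv c s).1⟫ := by
      simp only [dil, real_inner_smul_left]
      rw [← mul_assoc, mul_inv_cancel₀ hr0, one_mul]
    rw [h5] at h4
    exact h4

end Pool.Agent.D0H6.NG
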